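import Mathlib
import Pool.Agent.N141.SG.Seq6
import Pool.Agent.Results.MP_b56c98_ag.PlaneAllDegrees

set_option autoImplicit false

/-!
# The plane Hilbert functions `H_{2,r,p}` for prime multiplicities `p`

Let `r ≥ 10`. The Hilbert function `H_{2,r,p}` is `min (binom (d + 2) 2) (r * binom (p + 1) 2)` in EVERY
degree `d` for all PRIMES `p` of a reduced residue class outside of a proportion of at most
`bad r < 1`; `bad r = 0` for `r ≥ 37`, `r = 13`, `r = 21` and the squares, and `bad 10 < 0.163`,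
`bad 11 < 0.053`, `bad 12 < 0.465`, `bad 14 < 0.738`, `bad 15 < 0.146`.
-/

namespace Pool.Agent.Results.MP_b56c98_ag.PlanePrimeMultiplicities

open MvPolynomial Filter
open Pool.Agent.Results.MP_b56c98_ag.PlaneAllDegrees (PlaneFormula formula_of)

/-- `H_{2,r,m}(d) = min (binom (2 + d) 2) (r * binom (2 + m - 1) 2)` for all degrees `d`, for the
points of one nonempty open set of `r`-tuples. -/
def AllDegrees (r m : ℕ) : Prop := PlaneFormula r m fun _ => True

open Classical in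
/-- The bound for the proportion of the bad multiplicities for `r` points. -/
noncomputable def bad (r : ℕ) : ℝ :=
  if 37 ≤ r ∨ r = 13 ∨ r = 21 ∨ IsSquare r then 0
  else if r = 11 ∨ r = 15 then (√(r : ℝ) - 3) / 6
  else (min (√(r : ℝ) - 3) (2 / 3 + 9 / (4 * √(r : ℝ))) +
    min (√(r : ℝ) - 3) (2 / 3 + 1 / (4 * √(r : ℝ)))) / 2

theorem allDegrees_of {r m : ℕ} (h : Pool.Agent.N141.SG.Ex r m) : AllDegrees r m := by
  obtain ⟨F, hF, hF'⟩ := h
  exact formula_of ⟨F, hF, fun P hP d _ => hF' P hP d⟩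

/-- counting in subsets -/
theorem ncard_le {s : Finset ℕ} {p q : ℕ → Prop} (h : ∀ n ∈ s, p n → q n) :
    ({n : ℕ | n ∈ s ∧ p n}.ncard : ℝ) ≤ ({n : ℕ | n ∈ s ∧ q n}.ncard : ℝ) := by
  have h1 : {n : ℕ | n ∈ s ∧ p n} ⊆ {n : ℕ | n ∈ s ∧ q n} := fun n hn => ⟨hn.1, h n hn.1 hn.2⟩
  exact_mod_cast Set.ncard_le_ncard h1 ((Finset.finite_toSet s).subset fun n hn => hn.1)

/-- The primes `p` of `(N, 2 N]` with `p ≡ b (mod q)`. -/
def primesIn (q b N : ℕ) : Finset ℕ :=
  ((Finset.Ioc N (2 * N)).filter Nat.Prime).filter (fun p => p ≡ b [MOD q])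

/-- **The plane Hilbert functions for prime multiplicities.** -/
theorem result :
    (∀ r : ℕ, 10 ≤ r → ∀ q b : ℕ, 0 < q → b.Coprime q → ∀ δ : ℝ, 0 < δ → ∀ᶠ N : ℕ in atTop,
      ({p : ℕ | p ∈ primesIn q b N ∧ ¬ AllDegrees r p}.ncard : ℝ) ≤
        (bad r + δ) * ((primesIn q b N).card : ℝ)) ∧
    (∀ r : ℕ, 10 ≤ r → bad r < 1) ∧
    (bad 10 < 0.163 ∧ bad 11 < 0.053 ∧ bad 12 < 0.465 ∧ bad 14 < 0.738 ∧ bad 15 < 0.146) := by
  refine ⟨fun r hr q b hq hb δ hδ => ?_, fun r hr =>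
    Pool.Agent.N141.SG.badU_lt hr, Pool.Agent.N141.SG.badU_vals⟩
  filter_upwards [Pool.Agent.N141.SG.one_primes hr hq hb hδ] with N hN
  exact (ncard_le (s := primesIn q b N) fun p _ hp h1 => hp (allDegrees_of h1)).trans hN

end Pool.Agent.Results.MP_b56c98_ag.PlanePrimeMultiplicities
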