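import Mathlib
import Pool.Agent.H350R3.MG.PLem
import Pool.Agent.N177.FP.Unif

/-!
# The Hilbert function of general fat points of equal multiplicity: universal bounds

Let `N = binom (n + m - 1) n`, `E = binom (n + d) n` and `min = min E (r N)`. Without any condition on
the dimension `n`, the multiplicity `m ≥ 1`, the degree `d` and the number `r` of the points we show
for the Hilbert function `h = H_{n,r,m}(d)` of `R / I^(m)`, for `r` general points of `ℙⁿ`, that

* `min - (N ^ 2 - 1) / 8 ≤ h ≤ min`;
* `h = min` unless `|E - r N| ≤ N (N - 3) / 2`; for given `n`, `m`, `d` this leaves at most `N - 2`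
  consecutive values of `r`.

Both bounds are attained for `m = d = 2`.

The proof adds the points one by one. If a new general point `x` of multiplicity `m` imposes
`ρ < N` conditions on the (nonzero) system `V` defined by the other points, and if `ρ` does not
increase when any one of the other points is removed, then the leading terms at `x` of the members
of `V` form a space which is stable under the derivations of the function field of the points, and
under the vector fields `x_a ∂_b` corrected by the motion of the point `x` alone. Such a space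
contains all the forms of degree `m - 1`, that is `ρ = N`. So the number of conditions imposed by the
successive points decreases strictly from the first point on which imposes less than `N` conditions.
-/

set_option autoImplicit false

namespace Pool.Agent.Results.MP_b56c98_ag.UniversalWindow

open MvPolynomial
open scoped LinearAlgebra.Projectivization
open Pool.Agent.H350R3.MG

/-- The `m`-th symbolic power of the ideal of the points `P₁, …, P_r`. -/
noncomputable def symbolicPower {n r : ℕ} (m : ℕ) (P : Fin r → ℙ ℂ (Fin (n + 1) → ℂ)) :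
    Ideal (MvPolynomial (Fin (n + 1)) ℂ) :=
  ⨅ i, primeIdeal (P i) ^ m

/-- The Hilbert function `dim R_d - dim J_d` of `R / J`. -/
noncomputable def hilbert {n : ℕ} (J : Ideal (MvPolynomial (Fin (n + 1)) ℂ)) (d : ℕ) : ℤ :=
  (Module.finrank ℂ (homogeneousSubmodule (Fin (n + 1)) ℂ d) : ℤ) -
    Module.finrank ℂ (homogeneousSubmodule (Fin (n + 1)) ℂ d ⊓ Submodule.restrictScalars ℂ J :
      Submodule ℂ (MvPolynomial (Fin (n + 1)) ℂ))

/-- `h` is the value `H_{n,r,m}(d)` of the Hilbert function of `R / I^(m)` for `r` general points: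
the value is `h` for all the `r`-tuples of points in a nonempty Zariski open set. -/
def IsGeneralHilbertValue (n r m d : ℕ) (h : ℤ) : Prop :=
  Generally (fun P : Fin r → ℙ ℂ (Fin (n + 1) → ℂ) => hilbert (symbolicPower m P) d = h)

lemma forms_mk {n r m d : ℕ} (hmd : m ≤ d) (v : Fin r → Fin (n + 1) → ℂ) (hv : ∀ i, v i ≠ 0) :
    (homogeneousSubmodule (Fin (n + 1)) ℂ d ⊓ Submodule.restrictScalars ℂ
      (symbolicPower m (fun i => Projectivization.mk ℂ (v i) (hv i))) :
        Submodule ℂ (MvPolynomial (Fin (n + 1)) ℂ)) =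
      H350MG.K (H350MG.ptList (fun _ => d + 1 - m)
        (fun x : Fin r × Fin (n + 1) => v x.1 x.2)) d := by
  unfold symbolicPower
  ext F
  rw [Submodule.mem_inf, Submodule.restrictScalars_mem, Submodule.mem_iInf, H350MG.mem_K]
  constructor
  · rintro ⟨h1, h2⟩
    refine ⟨h1, ?_⟩
    intro c hc
    obtain ⟨i, rfl⟩ := H350MG.exists_of_mem_ptList hc
    have h3 := h2 i
    rw [primeIdeal_mk] at h3
    exact (H350MG.mem_pow_iff (hv i) (by omega) h1).1 h3
  · rintro ⟨h1, h2⟩
    refine ⟨h1, fun i => ?_⟩
    rw [primeIdeal_mk, H350MG.mem_pow_iff (hv i) (by omega) h1]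
    exact h2 (fun j => v i j, d + 1 - m)
      (H350MG.mem_ptList (e := fun _ => d + 1 - m)
        (fun x : Fin r × Fin (n + 1) => v x.1 x.2) i)

/-- a nonzero polynomial does not vanish in suitable nonzero vectors of a nonempty open set -/
lemma exists_common {n k : ℕ} {Q : (Fin k → ℙ ℂ (Fin (n + 1) → ℂ)) → Prop} (hQ : Generally Q)
    (Φ : MvPolynomial (Fin k × Fin (n + 1)) ℂ) (hΦ0 : Φ ≠ 0) :
    ∃ (v : Fin k → Fin (n + 1) → ℂ) (hv : ∀ i, v i ≠ 0),
      eval (fun x : Fin k × Fin (n + 1) => v x.1 x.2) Φ ≠ 0 ∧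
        Q (fun i => Projectivization.mk ℂ (v i) (hv i)) := by
  obtain ⟨U, ⟨S, hS⟩, ⟨P0, hP0⟩, hU⟩ := hQ
  have hrep : ∀ i, (P0 i).rep ≠ 0 := fun i => (P0 i).rep_nonzero
  have h1 : (fun i => Projectivization.mk ℂ (P0 i).rep (hrep i)) ∈ U := by
    have : (fun i => Projectivization.mk ℂ (P0 i).rep (hrep i)) = P0 :=
      funext fun i => (P0 i).mk_rep
    rw [this]
    exact hP0
  obtain ⟨f, hf, hf1⟩ := (hS _ hrep).1 h1
  have hf0 : f ≠ 0 := by
    rintro rfl
    exact hf1 (map_zero _)
  have h2 : Φ * f * ∏ i : Fin k, X (i, (0 : Fin (n + 1))) ≠ 0 :=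
    mul_ne_zero (mul_ne_zero hΦ0 hf0) (Finset.prod_ne_zero_iff.2 fun i _ => X_ne_zero _)
  obtain ⟨w, hw⟩ : ∃ w : Fin k × Fin (n + 1) → ℂ,
      eval w (Φ * f * ∏ i : Fin k, X (i, (0 : Fin (n + 1)))) ≠ 0 := by
    by_contra hcon
    push Not at hcon
    exact h2 (MvPolynomial.funext fun w => by rw [hcon w, map_zero])
  rw [map_mul, map_mul, map_prod] at hw
  have hw1 := left_ne_zero_of_mul (left_ne_zero_of_mul hw)
  have hw2 := right_ne_zero_of_mul (left_ne_zero_of_mul hw)
  have hw3 := Finset.prod_ne_zero_iff.1 (right_ne_zero_of_mul hw)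
  have hv : ∀ i : Fin k, (fun j => w (i, j)) ≠ 0 := by
    intro i h0
    have := hw3 i (Finset.mem_univ i)
    rw [eval_X] at this
    exact this (congrFun h0 0)
  exact ⟨fun i j => w (i, j), hv, hw1, hU _ ((hS _ hv).2 ⟨f, hf, hw2⟩)⟩

/-- the value of the Hilbert function, from the dimension for the points off a hypersurface -/
lemma value_of {n r m d v : ℕ} (hv : ∃ Φ : MvPolynomial (Fin r × Fin (n + 1)) ℂ, Φ ≠ 0 ∧
    ∀ (w : Fin r → Fin (n + 1) → ℂ) (hw : ∀ i, w i ≠ 0),
      eval (fun x : Fin r × Fin (n + 1) => w x.1 x.2) Φ ≠ 0 →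
      Module.finrank ℂ (homogeneousSubmodule (Fin (n + 1)) ℂ d ⊓ Submodule.restrictScalars ℂ
        (symbolicPower m (fun i => Projectivization.mk ℂ (w i) (hw i))) :
        Submodule ℂ (MvPolynomial (Fin (n + 1)) ℂ)) = v) :
    ∀ h : ℤ, IsGeneralHilbertValue n r m d h ↔ h = ((n + d).choose n : ℤ) - v := by
  obtain ⟨Φ, hΦ0, hΦ⟩ := hv
  have hdim : Module.finrank ℂ (homogeneousSubmodule (Fin (n + 1)) ℂ d) = (n + d).choose n :=
    Pool.Agent.N177.FP.finrank_Rj_fin ℂ n d
  intro h
  constructor
  · intro hh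
    obtain ⟨w, hw, h1, h2⟩ := exists_common hh Φ hΦ0
    rw [← h2]
    unfold hilbert
    rw [hΦ w hw h1, hdim]
  · rintro rfl
    refine generally_of_poly Φ hΦ0 fun w hw h1 => ?_
    unfold hilbert
    rw [hΦ w hw h1, hdim]

/-- Let `m ≥ 1`, `N = binom (n + m - 1) n` and `E = binom (n + d) n`. There is a (unique) value `h` of
the Hilbert function `H_{n,r,m}(d)`; it satisfies `h ≤ min E (r N)` and
`8 (min E (r N) - h) ≤ N ^ 2 - 1`, and it is equal to `min E (r N)` if `2 |E - r N| > N (N - 3)`. So
for given `n`, `m`, `d` there is an `r₀` such that `H_{n,r,m}(d) = min E (r N)` for all `r < r₀` and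
for all `r ≥ r₀ + (N - 2)`. -/
theorem result (n m d : ℕ) (hm : 1 ≤ m) (N E : ℤ) (hN : N = (n + m - 1).choose n)
    (hE : E = (n + d).choose n) :
    (∀ r : ℕ, ∃ h : ℤ, (∀ h' : ℤ, IsGeneralHilbertValue n r m d h' ↔ h' = h) ∧
      h ≤ min E (r * N) ∧
      8 * (min E (r * N) - h) ≤ N ^ 2 - 1 ∧
      (N * (N - 3) < 2 * |E - r * N| → h = min E (r * N))) ∧
    ∃ r₀ : ℕ, ∀ r : ℕ, (r < r₀ ∨ (r₀ : ℤ) + (N - 2) ≤ r) →
      IsGeneralHilbertValue n r m d (min E (r * N)) := by
  have hNpos : 1 ≤ N := by
    rw [hN]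
    exact_mod_cast Nat.choose_pos (by omega : n ≤ n + m - 1)
  have main : ∀ r : ℕ, ∃ h : ℤ, (∀ h' : ℤ, IsGeneralHilbertValue n r m d h' ↔ h' = h) ∧
      h ≤ min E (r * N) ∧
      8 * (min E (r * N) - h) ≤ N ^ 2 - 1 ∧
      (N * (N - 3) < 2 * |E - r * N| → h = min E (r * N)) := by
    intro r
    have hNN : (0 : ℤ) ≤ N ^ 2 - 1 := by nlinarith
    rcases le_or_gt m d with hmd | hmd
    · obtain ⟨v, ⟨Φ, hΦ0, hΦ⟩, h1, h2, h3, h4, h5⟩ :=
        Pool.Agent.N177.FP.uniform_dim n r m d hm hmd
      refine ⟨E - v, ?_, ?_, ?_, ?_⟩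
      · rw [hE]
        refine value_of ⟨Φ, hΦ0, fun w hw hw1 => ?_⟩
        rw [forms_mk hmd w hw]
        exact hΦ _ hw1
      · refine le_min (by omega) ?_
        rw [hE, hN]
        have : ((n + d).choose n : ℤ) ≤ v + r * (n + m - 1).choose n := by exact_mod_cast h2
        linarith
      · obtain ⟨N', hN'⟩ : ∃ N' : ℕ, N' = (n + m - 1).choose n := ⟨_, rfl⟩
        obtain ⟨E', hE'⟩ : ∃ E' : ℕ, E' = (n + d).choose n := ⟨_, rfl⟩
        rw [← hN', ← hE'] at h3
        rw [← hN'] at hN
        rw [← hE'] at hE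
        rw [hN, hE]
        have h6 : (8 * v + 1 : ℤ) ≤ N' * N' + 8 * ((E' - r * N' : ℕ) : ℤ) := by exact_mod_cast h3
        rcases le_total E' (r * N') with h7 | h7
        · have h8 : E' - r * N' = 0 := Nat.sub_eq_zero_of_le h7
          rw [h8] at h6
          have h9 : (E' : ℤ) ≤ r * N' := by exact_mod_cast h7
          rw [min_eq_left h9]
          push_cast at h6
          nlinarith
        · rw [Nat.cast_sub h7] at h6
          have h9 : ((r : ℤ) * N' : ℤ) ≤ E' := by exact_mod_cast h7
          rw [min_eq_right h9]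
          push_cast at h6
          nlinarith
      · intro h6
        obtain ⟨N', hN'⟩ : ∃ N' : ℕ, N' = (n + m - 1).choose n := ⟨_, rfl⟩
        obtain ⟨E', hE'⟩ : ∃ E' : ℕ, E' = (n + d).choose n := ⟨_, rfl⟩
        rw [← hN', ← hE'] at h2 h4
        rw [← hN', ← hE'] at h5
        rw [← hN'] at hN
        rw [← hE'] at hE
        rw [hN, hE] at h6 ⊢
        rcases le_total (E' : ℤ) (r * N') with h7 | h7
        · rw [min_eq_left h7]
          rw [abs_of_nonpos (by linarith)] at h6
          have h8 : E' < ∑ t ∈ Finset.range (r + 1), min N' (t + 1) := by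
            have h9 := Pool.Agent.N177.FP.sum_min_ge N' r
            have h10 : (N' * (2 * r + 3) : ℤ) ≤
                2 * ((∑ t ∈ Finset.range (r + 1), min N' (t + 1) : ℕ) : ℤ) + N' * N' := by
              exact_mod_cast h9
            have h11 : (E' : ℤ) < ((∑ t ∈ Finset.range (r + 1), min N' (t + 1) : ℕ) : ℤ) := by
              nlinarith
            exact_mod_cast h11
          rw [h5 h8]
          simp
        · rw [min_eq_right h7]
          rw [abs_of_nonneg (by linarith)] at h6
          have h8 := h4 (by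
            have : ((N' * (2 * r + N') : ℕ) : ℤ) < ((2 * E' + 3 * N' : ℕ) : ℤ) := by
              push_cast
              nlinarith
            exact_mod_cast this)
          have h9 : (v + r * N' : ℤ) = E' := by exact_mod_cast h8
          linarith
    · -- no form of degree `d < m` vanishes to order `m`, and `E ≤ N`
      rcases Nat.eq_zero_or_pos r with rfl | hr
      · have h0 : ∀ (w : Fin 0 → Fin (n + 1) → ℂ) (hw : ∀ i, w i ≠ 0),
            eval (fun x : Fin 0 × Fin (n + 1) => w x.1 x.2)
              (1 : MvPolynomial (Fin 0 × Fin (n + 1)) ℂ) ≠ 0 →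
            Module.finrank ℂ (homogeneousSubmodule (Fin (n + 1)) ℂ d ⊓
              Submodule.restrictScalars ℂ
                (symbolicPower m (fun i => Projectivization.mk ℂ (w i) (hw i))) :
              Submodule ℂ (MvPolynomial (Fin (n + 1)) ℂ)) = (n + d).choose n := by
          intro w hw _
          have h1 : symbolicPower m (fun i => Projectivization.mk ℂ (w i) (hw i)) = ⊤ := by
            unfold symbolicPower
            exact iInf_of_empty _
          have h2 : (homogeneousSubmodule (Fin (n + 1)) ℂ d ⊓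
              Submodule.restrictScalars ℂ (⊤ : Ideal (MvPolynomial (Fin (n + 1)) ℂ)) :
              Submodule ℂ (MvPolynomial (Fin (n + 1)) ℂ)) =
              homogeneousSubmodule (Fin (n + 1)) ℂ d := by
            rw [Submodule.restrictScalars_top, inf_top_eq]
          rw [h1, h2]
          exact Pool.Agent.N177.FP.finrank_Rj_fin ℂ n d
        have hval := value_of (m := m) ⟨1, one_ne_zero, h0⟩
        rw [sub_self] at hval
        have hE0 : 0 ≤ E := by rw [hE]; positivity
        have hmin : min E (((0 : ℕ) : ℤ) * N) = 0 := by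
          rw [Nat.cast_zero, zero_mul]
          exact min_eq_right hE0
        refine ⟨0, hval, hmin.ge, ?_, fun _ => hmin.symm⟩
        rw [hmin]
        linarith
      · have h0 : ∀ (w : Fin r → Fin (n + 1) → ℂ) (hw : ∀ i, w i ≠ 0),
            eval (fun x : Fin r × Fin (n + 1) => w x.1 x.2)
              (1 : MvPolynomial (Fin r × Fin (n + 1)) ℂ) ≠ 0 →
            Module.finrank ℂ (homogeneousSubmodule (Fin (n + 1)) ℂ d ⊓
              Submodule.restrictScalars ℂ
                (symbolicPower m (fun i => Projectivization.mk ℂ (w i) (hw i))) :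
              Submodule ℂ (MvPolynomial (Fin (n + 1)) ℂ)) = 0 := by
          intro w hw _
          have h1 : (homogeneousSubmodule (Fin (n + 1)) ℂ d ⊓
              Submodule.restrictScalars ℂ
                (symbolicPower m (fun i => Projectivization.mk ℂ (w i) (hw i))) :
              Submodule ℂ (MvPolynomial (Fin (n + 1)) ℂ)) = ⊥ := by
            rw [eq_bot_iff]
            intro F hF
            unfold symbolicPower at hF
            rw [Submodule.mem_inf, Submodule.restrictScalars_mem, Submodule.mem_iInf] at hF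
            have h2 := hF.2 ⟨0, hr⟩
            rw [primeIdeal_mk] at h2
            rw [Submodule.mem_bot]
            exact H350MG.eq_zero_of_mem_pow hmd h2 hF.1
          rw [h1, finrank_bot]
        have hval := value_of (m := m) ⟨1, one_ne_zero, h0⟩
        rw [Nat.cast_zero, sub_zero, ← hE] at hval
        have hEN : E ≤ r * N := by
          rw [hE, hN]
          have h1 : (n + d).choose n ≤ (n + m - 1).choose n :=
            Nat.choose_le_choose n (by omega)
          have h2 : (n + m - 1).choose n ≤ r * (n + m - 1).choose n :=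
            Nat.le_mul_of_pos_left _ hr
          exact_mod_cast h1.trans h2
        have hmin : min E (r * N) = E := min_eq_left hEN
        refine ⟨E, hval, hmin.ge, ?_, fun _ => hmin.symm⟩
        rw [hmin]
        linarith
  refine ⟨main, ?_⟩
  -- the least `r` for which `2 (r N - E) ≥ - N (N - 3)`
  have hE0 : 0 ≤ E := by rw [hE]; positivity
  by_cases hN2 : N ≤ 2
  · refine ⟨0, fun r _ => ?_⟩
    obtain ⟨h, h1, -, -, h2⟩ := main r
    rw [h1, h2]
    have h3 := abs_nonneg (E - r * N)
    nlinarith
  · push Not at hN2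
    have hex : ∃ r : ℕ, 2 * E ≤ 2 * (r * N) + N * (N - 3) := by
      refine ⟨E.toNat, ?_⟩
      have h1 : ((E.toNat : ℕ) : ℤ) = E := Int.toNat_of_nonneg hE0
      rw [h1]
      nlinarith
    classical
    obtain ⟨r₀, h0, hmin⟩ : ∃ r₀ : ℕ, 2 * E ≤ 2 * (r₀ * N) + N * (N - 3) ∧
        ∀ j < r₀, ¬ (2 * E ≤ 2 * ((j : ℤ) * N) + N * (N - 3)) :=
      ⟨Nat.find hex, Nat.find_spec hex, fun j hj => Nat.find_min hex hj⟩
    refine ⟨r₀, fun r hr => ?_⟩
    obtain ⟨h, h1, -, -, h2⟩ := main r
    rw [h1, h2]
    rcases hr with hr | hr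
    · have h3 := hmin r hr
      push Not at h3
      have h4 := le_abs_self (E - r * N)
      linarith
    · have h4 := neg_abs_le (E - r * N)
      have h5 : (r₀ + (N - 2)) * N ≤ r * N := mul_le_mul_of_nonneg_right hr (by linarith)
      nlinarith

end Pool.Agent.Results.MP_b56c98_ag.UniversalWindow
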